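import Pool.Agent.MP_3ee8cb_gt.DNW.Pair

/-! Integrals over the unit ball and the energy estimate for an averaged projection. -/

namespace Pool.Agent.MP_3ee8cb_gt.PXQ

open Set MeasureTheory Metric
open scoped RealInnerProductSpace

noncomputable section

variable {E : Type} [NormedAddCommGroup E] [InnerProductSpace ℝ E] [FiniteDimensional ℝ E]
  [MeasurableSpace E] [BorelSpace E]

omit [InnerProductSpace ℝ E] [FiniteDimensional ℝ E] [MeasurableSpace E] [BorelSpace E] in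
theorem ball_eq : {v : E | ‖v‖ ^ 2 < 1} = ball 0 1 := by
  ext v
  simp only [mem_ofPred_eq, mem_ball_zero_iff]
  exact sq_lt_one_iff₀ (norm_nonneg v)

theorem int_b {f : E → ℝ} (hf : Continuous f) : IntegrableOn f (ball (0 : E) 1) :=
  ball_eq (E := E) ▸ DNW.int_on 1 hf

/-- Isotropy of the ball. -/
theorem iso_tr (L : E →L[ℝ] E) : (Module.finrank ℝ E : ℝ) * ∫ v in ball (0 : E) 1, ⟪L v, v⟫ =
    (∫ v in ball (0 : E) 1, ‖v‖ ^ 2) * LinearMap.trace ℝ E L := by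
  rcases subsingleton_or_nontrivial E with h | h
  · simp [Subsingleton.elim L 0]
  obtain ⟨e, he⟩ := exists_norm_eq E zero_le_one
  have h1 := DNW.iso 1 he L
  have h2 := DNW.iso 1 he (.id ℝ E)
  rw [ball_eq] at h1 h2
  simp only [ContinuousLinearMap.coe_id', id_eq, real_inner_self_eq_norm_sq,
    ContinuousLinearMap.coe_id, LinearMap.trace_id] at h2
  rw [h1, h2]
  ring

theorem iso_two (a b : E) : (Module.finrank ℝ E : ℝ) * ∫ v in ball (0 : E) 1, ⟪v, a⟫ * ⟪v, b⟫ =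
    (∫ v in ball (0 : E) 1, ‖v‖ ^ 2) * ⟪a, b⟫ := by
  have h := iso_tr ((innerSL ℝ a).smulRight b)
  have h2 : LinearMap.trace ℝ E ((innerSL ℝ a).smulRight b : E →L[ℝ] E) = ⟪a, b⟫ := by
    have : (((innerSL ℝ a).smulRight b : E →L[ℝ] E) : E →ₗ[ℝ] E) =
        (innerSL ℝ a : E →ₗ[ℝ] ℝ).smulRight b := rfl
    rw [this, LinearMap.trace_smulRight]
    rfl
  rw [h2] at h
  rw [← h]
  refine congrArg _ (integral_congr_ae (.of_forall fun v => ?_))
  simp only [ContinuousLinearMap.smulRight_apply, innerSL_apply_apply, real_inner_smul_left]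
  rw [real_inner_comm v a, real_inner_comm v b]

theorem adj_sq (A : E →L[ℝ] E) : ∫ v in ball (0 : E) 1, ‖A.adjoint v‖ ^ 2 =
    ∫ v in ball (0 : E) 1, ‖A v‖ ^ 2 := by
  rcases subsingleton_or_nontrivial E with h | h
  · simp [Subsingleton.elim A 0]
  have hn : (Module.finrank ℝ E : ℝ) ≠ 0 := Nat.cast_ne_zero.2 Module.finrank_pos.ne'
  have h1 := iso_tr (A * A.adjoint)
  have h2 := iso_tr (A.adjoint * A)
  have h3 : LinearMap.trace ℝ E (A * A.adjoint : E →L[ℝ] E) =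
      LinearMap.trace ℝ E (A.adjoint * A : E →L[ℝ] E) := LinearMap.trace_mul_comm ℝ _ _
  have e1 : ∀ v, ⟪(A * A.adjoint) v, v⟫ = ‖A.adjoint v‖ ^ 2 := fun v => by
    rw [mul_apply_eq_comp, ← ContinuousLinearMap.adjoint_inner_right,
      real_inner_self_eq_norm_sq]
  have e2 : ∀ v, ⟪(A.adjoint * A) v, v⟫ = ‖A v‖ ^ 2 := fun v => by
    rw [mul_apply_eq_comp, ContinuousLinearMap.adjoint_inner_left,
      real_inner_self_eq_norm_sq]
  simp only [e1] at h1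
  simp only [e2] at h2
  exact mul_left_cancel₀ hn (by rw [h1, h2, h3])

omit [FiniteDimensional ℝ E] [MeasurableSpace E] [BorelSpace E] in
theorem norm_le_of_quad (B : E →L[ℝ] E) (hB : ∀ a b, ⟪B a, b⟫ = ⟪a, B b⟫) {N : ℝ} (hN : 0 ≤ N)
    (h : ∀ e, ‖e‖ = 1 → |⟪B e, e⟫| ≤ N) : ‖B‖ ≤ N := by
  have h1 : ∀ v, |⟪B v, v⟫| ≤ N * ‖v‖ ^ 2 := fun v => by
    rcases eq_or_ne v 0 with rfl | hv
    · simp
    have hp : 0 < ‖v‖ := norm_pos_iff.2 hv
    have h2 := h (‖v‖⁻¹ • v) (norm_smul_inv_norm hv)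
    rw [map_smul, real_inner_smul_left, real_inner_smul_right, abs_mul, abs_mul,
      abs_of_pos (inv_pos.2 hp)] at h2
    have h3 : |⟪B v, v⟫| = (‖v‖⁻¹ * (‖v‖⁻¹ * |⟪B v, v⟫|)) * ‖v‖ ^ 2 := by field_simp
    rw [h3]
    exact mul_le_mul_of_nonneg_right h2 (sq_nonneg _)
  have h2 : ∀ x y, 2 * ⟪B x, y⟫ ≤ N * (‖x‖ ^ 2 + ‖y‖ ^ 2) := fun x y => by
    have a1 := (abs_le.1 (h1 (x + y))).2
    have a2 := (abs_le.1 (h1 (x - y))).1
    rw [norm_add_sq_real] at a1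
    rw [norm_sub_sq_real] at a2
    simp only [map_add, map_sub, inner_add_left, inner_add_right, inner_sub_left,
      inner_sub_right] at a1 a2
    have a3 : ⟪B y, x⟫ = ⟪B x, y⟫ := by rw [hB, real_inner_comm]
    nlinarith
  refine ContinuousLinearMap.opNorm_le_of_unit_norm hN fun x hx => ?_
  rcases eq_or_ne (B x) 0 with h0 | h0
  · rw [h0, norm_zero]
    exact hN
  have hp : 0 < ‖B x‖ := norm_pos_iff.2 h0
  have h3 := h2 x (‖B x‖⁻¹ • B x)
  have h5 : ‖‖B x‖⁻¹ • B x‖ = 1 := norm_smul_inv_norm h0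
  rw [h5, hx, real_inner_smul_right, real_inner_self_eq_norm_sq] at h3
  have h4 : ‖B x‖⁻¹ * ‖B x‖ ^ 2 = ‖B x‖ := by field_simp
  rw [h4] at h3
  linarith

/-- The quartic average of a symmetric form controls its norm. -/
theorem coer : ∃ c : ℝ, 0 < c ∧ ∀ B : E →L[ℝ] E, (∀ a b, ⟪B a, b⟫ = ⟪a, B b⟫) →
    c * ‖B‖ ^ 2 ≤ ∫ w in ball (0 : E) 1, ⟪B w, w⟫ ^ 2 := by
  have hv : 0 < (volume : Measure E).real (ball 0 (1 / 32)) :=
    ENNReal.toReal_pos (measure_ball_pos _ _ (by norm_num)).ne' measure_ball_lt_top.ne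
  refine ⟨(volume : Measure E).real (ball 0 (1 / 32)) / 256, by positivity, fun B hB => ?_⟩
  by_cases h : ∀ e, ‖e‖ = 1 → |⟪B e, e⟫| ≤ ‖B‖ / 2
  · have h1 := norm_le_of_quad B hB (by positivity) h
    have h2 : ‖B‖ = 0 := le_antisymm (by linarith) (norm_nonneg _)
    rw [h2]
    simpa using integral_nonneg fun w => sq_nonneg _
  push Not at h
  obtain ⟨e, he, h⟩ := h
  have hs : ball ((1 / 2 : ℝ) • e) (1 / 32) ⊆ ball (0 : E) 1 := by
    refine ball_subset_ball' ?_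
    rw [dist_zero_right, norm_smul, he]
    norm_num
  have hl : ∀ w ∈ ball ((1 / 2 : ℝ) • e) (1 / 32), ‖B‖ ^ 2 / 256 ≤ ⟪B w, w⟫ ^ 2 := fun w hw => by
    rw [mem_ball_iff_norm] at hw
    set v := w - (1 / 2 : ℝ) • e with hv
    have hw' : w = (1 / 2 : ℝ) • e + v := by rw [hv]; abel
    have a0 : ⟪B w, w⟫ = ⟪B e, e⟫ / 4 + ⟪B e, v⟫ + ⟪B v, v⟫ := by
      have : ⟪B v, e⟫ = ⟪B e, v⟫ := by rw [hB, real_inner_comm]
      rw [hw']
      simp only [map_add, map_smul, inner_add_left, inner_add_right, real_inner_smul_left,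
        real_inner_smul_right, this]
      ring
    have a1 : |⟪B e, v⟫| ≤ ‖B‖ * (1 / 32) := (abs_real_inner_le_norm _ _).trans
      (mul_le_mul (by simpa [he] using B.le_opNorm e) hw.le (norm_nonneg _) (norm_nonneg _))
    have a2 : |⟪B v, v⟫| ≤ ‖B‖ * (1 / 32) * (1 / 32) := (abs_real_inner_le_norm _ _).trans
      (mul_le_mul ((B.le_opNorm v).trans (mul_le_mul_of_nonneg_left hw.le (norm_nonneg _)))
        hw.le (norm_nonneg _) (by positivity))
    have a3 : ‖B‖ / 16 ≤ |⟪B w, w⟫| := by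
      have := norm_nonneg B
      rw [a0]
      rcases abs_le.1 a1 with ⟨b1, b2⟩
      rcases abs_le.1 a2 with ⟨b3, b4⟩
      rcases lt_abs.1 h with h | h
      · exact le_abs.2 (Or.inl (by linarith))
      · exact le_abs.2 (Or.inr (by linarith))
    have a4 := pow_le_pow_left₀ (by positivity) a3 2
    rw [sq_abs] at a4
    linarith
  have hi : IntegrableOn (fun w => ⟪B w, w⟫ ^ 2) (ball (0 : E) 1) := int_b (by fun_prop)
  have k1 := setIntegral_mono_set hi (.of_forall fun w => sq_nonneg _) hs.eventuallyLE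
  have k2 := setIntegral_ge_of_const_le_real measurableSet_ball measure_ball_lt_top.ne hl
    (hi.mono_set hs)
  have k3 : (volume : Measure E).real (ball ((1 / 2 : ℝ) • e) (1 / 32)) =
      (volume : Measure E).real (ball 0 (1 / 32)) := by
    simp only [Measure.real, Measure.addHaar_ball_center volume ((1 / 2 : ℝ) • e)]
  rw [k3] at k2
  linarith

/-- The functional `l` is touched from above in the direction `w`, with a small loss. -/
def Tq (A : E →L[ℝ] E) (ε : ℝ) (w : E) (l : E →L[ℝ] ℝ) : Prop := ∀ a, 0 < ⟪w, A a⟫ →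
  l a ≤ ‖w‖ * ‖a‖ - ⟪w, A a⟫ + ε * ‖w‖ * ‖A a - w‖ ∧
    l a ≤ ‖w‖ * ‖a‖ - ⟪w, A a⟫ + ε * ‖w‖ ^ 2 * ‖A a - w‖ ^ 2 / ⟪w, A a⟫

omit [MeasurableSpace E] [BorelSpace E] in
theorem tq_pt {A : E →L[ℝ] E} {ε M : ℝ} {w : E} {l : E →L[ℝ] ℝ} (hε : 0 ≤ ε) (hA : ‖A‖ ≤ M)
    (hw : ‖w‖ < 1) (h : Tq A ε w l) : l (A.adjoint w) ≤ (‖w‖ ^ 2 - ‖A.adjoint w‖ ^ 2 -
      ⟪(A * A.adjoint - 1) w, w⟫ ^ 2 / (M + 1) ^ 2) / 2 + 2 * ε * ‖A * A.adjoint - 1‖ ^ 2 := by
  set B := A * A.adjoint - 1 with hB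
  set f := ‖A.adjoint w‖ with hf
  have hM : 0 ≤ M := (norm_nonneg _).trans hA
  have f0 : 0 ≤ f := norm_nonneg _
  have w0 := norm_nonneg w
  have B0 := norm_nonneg B
  have e1 : ⟪w, A (A.adjoint w)⟫ = f ^ 2 := by
    rw [← ContinuousLinearMap.adjoint_inner_left, real_inner_self_eq_norm_sq]
  have e2 : A (A.adjoint w) - w = B w := rfl
  have e3 : ⟪B w, w⟫ = f ^ 2 - ‖w‖ ^ 2 := by
    rw [← e2, inner_sub_left, real_inner_comm, e1, real_inner_self_eq_norm_sq]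
  have fM : f ≤ M := by
    have := (A.adjoint).le_opNorm w
    rw [LinearIsometryEquiv.norm_map] at this
    nlinarith [norm_nonneg A]
  have q1 : ⟪B w, w⟫ ^ 2 / (M + 1) ^ 2 ≤ (f - ‖w‖) ^ 2 := by
    rw [div_le_iff₀ (by positivity), e3]
    have : (f + ‖w‖) ^ 2 ≤ (M + 1) ^ 2 := pow_le_pow_left₀ (by positivity) (by linarith) 2
    nlinarith [mul_le_mul_of_nonneg_left this (sq_nonneg (f - ‖w‖))]
  have hBw : ‖B w‖ ≤ ‖B‖ * ‖w‖ := B.le_opNorm w
  have key : l (A.adjoint w) ≤ ‖w‖ * f - f ^ 2 + 2 * ε * ‖B‖ ^ 2 := by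
    rcases f0.eq_or_lt with h0 | h0
    · have : A.adjoint w = 0 := norm_eq_zero.1 h0.symm
      rw [this, map_zero, ← h0]
      have : 0 ≤ 2 * ε * ‖B‖ ^ 2 := by positivity
      linarith
    obtain ⟨h1, h2⟩ := h (A.adjoint w) (by rw [e1]; positivity)
    rw [e1, e2] at h1 h2
    rcases le_total ‖B‖ (1 / 2) with hb | hb
    · have a1 : |⟪B w, w⟫| ≤ ‖B‖ * ‖w‖ * ‖w‖ :=
        (abs_real_inner_le_norm _ _).trans (mul_le_mul_of_nonneg_right hBw w0)
      have a2 : ‖w‖ ^ 2 ≤ 2 * f ^ 2 := by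
        have := (abs_le.1 a1).1
        rw [e3] at this
        nlinarith [mul_le_mul_of_nonneg_right hb (mul_nonneg w0 w0)]
      have a3 : ‖B w‖ ^ 2 ≤ ‖B‖ ^ 2 :=
        pow_le_pow_left₀ (norm_nonneg _) (by nlinarith) 2
      have a4 : ε * ‖w‖ ^ 2 * ‖B w‖ ^ 2 / f ^ 2 ≤ 2 * ε * ‖B‖ ^ 2 := by
        rw [div_le_iff₀ (by positivity)]
        have := mul_le_mul a2 a3 (sq_nonneg _) (by positivity)
        nlinarith [mul_le_mul_of_nonneg_left this hε]
      linarith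
    · have a1 : ‖w‖ * ‖B w‖ ≤ 2 * ‖B‖ ^ 2 := by
        have : ‖B w‖ ≤ ‖B‖ := by nlinarith
        nlinarith [norm_nonneg (B w)]
      nlinarith [mul_le_mul_of_nonneg_left a1 hε]
  nlinarith

/-- The energy estimate: touching functionals with vanishing first moment force the mean square
stretch of `A` to be at most one, with equality only for isometries. -/
theorem alg (M : ℝ) : ∃ ε : ℝ, 0 < ε ∧ ∀ (A : E →L[ℝ] E) (l : E → E →L[ℝ] ℝ), ‖A‖ ≤ M →
    (∀ a b, IntegrableOn (fun w => l w a * ⟪w, b⟫) (ball (0 : E) 1)) →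
    (∀ a b, ∫ w in ball (0 : E) 1, l w a * ⟪w, b⟫ = 0) →
    (∀ᵐ w ∂(volume.restrict (ball (0 : E) 1)), Tq A ε w (l w)) →
    ∫ a in ball (0 : E) 1, ‖A a‖ ^ 2 ≤ ∫ a in ball (0 : E) 1, ‖a‖ ^ 2 ∧
      (∫ a in ball (0 : E) 1, ‖a‖ ^ 2 ≤ ∫ a in ball (0 : E) 1, ‖A a‖ ^ 2 →
        ∀ a, ‖A a‖ = ‖a‖) := by
  obtain ⟨c, hc, hco⟩ := coer (E := E)
  set v := (volume : Measure E).real (ball 0 1) with hv
  have v0 : 0 < v := ENNReal.toReal_pos (measure_ball_pos _ _ one_pos).ne' measure_ball_lt_top.ne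
  have hM : 0 < (|M| + 1) ^ 2 := by positivity
  refine ⟨c / (|M| + 1) ^ 2 / (8 * v), by positivity, fun A l hA hi h0 hT => ?_⟩
  set B := A * A.adjoint - 1 with hB
  set c' := c / (|M| + 1) ^ 2 with hc'
  have c0 : 0 < c' := by positivity
  let b := stdOrthonormalBasis ℝ E
  have e1 : ∀ w, l w (A.adjoint w) = ∑ i, l w (b i) * ⟪w, A (b i)⟫ := fun w => by
    conv_lhs => rw [← b.sum_repr' (A.adjoint w)]
    simp only [map_sum, map_smul, smul_eq_mul, ContinuousLinearMap.adjoint_inner_right]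
    exact Finset.sum_congr rfl fun i _ => by rw [real_inner_comm, mul_comm]
  have i1 : IntegrableOn (fun w => l w (A.adjoint w)) (ball (0 : E) 1) := by
    simp only [e1]
    exact integrable_finsetSum _ fun i _ => hi _ _
  have z1 : ∫ w in ball (0 : E) 1, l w (A.adjoint w) = 0 := by
    simp only [e1]
    rw [integral_finsetSum _ fun i _ => hi _ _]
    simp only [h0, Finset.sum_const_zero]
  have hle := setIntegral_mono_ae_restrict (g := fun w => (‖w‖ ^ 2 - ‖A.adjoint w‖ ^ 2 -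
      ⟪B w, w⟫ ^ 2 / (|M| + 1) ^ 2) / 2 + 2 * (c' / (8 * v)) * ‖B‖ ^ 2) i1
    (int_b (by fun_prop)) (by
      filter_upwards [hT, ae_restrict_mem measurableSet_ball] with w h1 h2
      exact tq_pt (by positivity) (hA.trans (le_abs_self M)) (mem_ball_zero_iff.1 h2) h1)
  rw [z1, integral_add (int_b (by fun_prop)) (int_b (by fun_prop)), integral_div,
    integral_sub (int_b (by fun_prop)) (int_b (by fun_prop)),
    integral_sub (int_b (by fun_prop)) (int_b (by fun_prop)), integral_div, adj_sq,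
    setIntegral_const, ← hv, smul_eq_mul] at hle
  have hs : ∀ x y, ⟪B x, y⟫ = ⟪x, B y⟫ := fun x y => by
    change ⟪A (A.adjoint x) - x, y⟫ = ⟪x, A (A.adjoint y) - y⟫
    rw [inner_sub_left, inner_sub_right, ← A.adjoint_inner_right, ← A.adjoint_inner_left]
  have k1 : c' * ‖B‖ ^ 2 ≤ (∫ w in ball (0 : E) 1, ⟪B w, w⟫ ^ 2) / (|M| + 1) ^ 2 := by
    rw [hc', div_mul_eq_mul_div]
    exact div_le_div_of_nonneg_right (hco B hs) hM.le
  have k2 : v * (2 * (c' / (8 * v)) * ‖B‖ ^ 2) = c' * ‖B‖ ^ 2 / 4 := by field_simp; ring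
  rw [k2] at hle
  have k3 : 0 ≤ c' * ‖B‖ ^ 2 := by positivity
  refine ⟨by linarith, fun h a => ?_⟩
  have k4 : ‖B‖ ^ 2 ≤ 0 := by
    by_contra hn
    have := mul_pos c0 (not_le.1 hn)
    linarith
  have k5 : B = 0 := norm_eq_zero.1 (pow_eq_zero_iff two_ne_zero |>.1
    (le_antisymm k4 (sq_nonneg _)))
  have k6 : A * A.adjoint = 1 := sub_eq_zero.1 k5
  have k7 : (A.adjoint : E →ₗ[ℝ] E) * (A : E →ₗ[ℝ] E) = 1 := mul_eq_one_comm.1
    (LinearMap.ext fun x => DFunLike.congr_fun k6 x)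
  have k8 : A.adjoint (A a) = a := LinearMap.congr_fun k7 a
  have k9 : ‖A a‖ ^ 2 = ‖a‖ ^ 2 := by
    rw [← real_inner_self_eq_norm_sq, ← ContinuousLinearMap.adjoint_inner_right, k8,
      real_inner_self_eq_norm_sq]
  exact (pow_left_inj₀ (norm_nonneg _) (norm_nonneg _) two_ne_zero).1 k9

end

end Pool.Agent.MP_3ee8cb_gt.PXQ
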