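import Pool.Agent.MP_3ee8cb_gt.DZJ.Alg

/-! The sharp form of the Jacobian estimate. -/

namespace Pool.Agent.MP_3ee8cb_gt.PXQ

open Set MeasureTheory CR DZJ
open scoped RealInnerProductSpace

/-- The pointwise inequality, in coordinates. -/
theorem pt2 {ι : Type*} [Fintype ι] (r x z : ι → ℝ) (c ε p q : ℝ) (hp : 0 ≤ p)
    (hr : ∀ i, p ≤ r i ∧ r i ≤ q) (hc : 1 ≤ c) (hx : ∑ i, x i ^ 2 = 1)
    (hzx : ∑ i, z i * x i = 0) (hz : ∑ i, z i ^ 2 ≤ ε ^ 2 * (c - 1)) :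
    ∑ i, r i ^ 2 * x i ^ 2 - ε ^ 2 / 4 * (q - p) ^ 2 ≤
      c * ∑ i, r i ^ 2 * x i ^ 2 + ∑ i, r i ^ 2 * (z i * x i) := by
  set a : ℝ := ∑ i, r i ^ 2 * x i ^ 2 with ha
  have a0 : 0 ≤ a := Finset.sum_nonneg fun i _ => by positivity
  have h1 : ∑ i, r i ^ 2 * (z i * x i) = ∑ i, z i * ((r i ^ 2 - a) * x i) := by
    have : ∀ i, z i * ((r i ^ 2 - a) * x i) = r i ^ 2 * (z i * x i) - a * (z i * x i) :=
      fun i => by ring
    simp only [this, Finset.sum_sub_distrib, ← Finset.mul_sum, hzx, mul_zero, sub_zero]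
  have h2 : ∑ i, ((r i ^ 2 - a) * x i) ^ 2 ≤ a * (q - p) ^ 2 := by
    have k : ∀ i, ((r i ^ 2 - a) * x i) ^ 2 ≤ (p ^ 2 + q ^ 2 - 2 * a) * (r i ^ 2 * x i ^ 2) +
        (a ^ 2 - p ^ 2 * q ^ 2) * x i ^ 2 := fun i => by
      have b1 : p ^ 2 ≤ r i ^ 2 := pow_le_pow_left₀ hp (hr i).1 2
      have b2 : r i ^ 2 ≤ q ^ 2 := pow_le_pow_left₀ (hp.trans (hr i).1) (hr i).2 2
      nlinarith [mul_nonneg (mul_nonneg (sub_nonneg.2 b1) (sub_nonneg.2 b2)) (sq_nonneg (x i))]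
    have k2 := Finset.sum_le_sum fun i (_ : i ∈ Finset.univ) => k i
    rw [Finset.sum_add_distrib, ← Finset.mul_sum, ← Finset.mul_sum, hx, ← ha] at k2
    nlinarith [sq_nonneg (a - p * q)]
  have h3 := Finset.sum_mul_sq_le_sq_mul_sq Finset.univ z fun i => (r i ^ 2 - a) * x i
  have c0 : 0 ≤ c - 1 := by linarith
  have h4 := h3.trans (mul_le_mul hz h2 (Finset.sum_nonneg fun i _ => sq_nonneg _)
    (by positivity))
  have h5 : (∑ i, z i * ((r i ^ 2 - a) * x i)) ^ 2 ≤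
      ((c - 1) * a + ε ^ 2 / 4 * (q - p) ^ 2) ^ 2 := by
    nlinarith [sq_nonneg ((c - 1) * a - ε ^ 2 / 4 * (q - p) ^ 2)]
  have h6 := (abs_le.1 (abs_le_of_sq_le_sq' h5 (by positivity) |> fun h => abs_le.2 h)).1
  rw [h1]
  linarith

/-- A trace bound with a defect below the spread bounds the product. -/
theorem log2 {ι : Type*} [Fintype ι] (r : ι → ℝ) (hr : ∀ i, 0 < r i) (j k : ι) {κ : ℝ}
    (hκ : κ < 1) (hm : ∀ i, r j ≤ r i ∧ r i ≤ r k)
    (h : ∑ i, r i ^ 2 ≤ Fintype.card ι + κ * (r k - r j) ^ 2) :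
    ∏ i, r i ^ 2 ≤ 1 ∧ (∏ i, r i ^ 2 = 1 → ∀ i, r i = 1) := by
  classical
  have hp : 0 < ∏ i, r i ^ 2 := Finset.prod_pos fun i _ => pow_pos (hr i) 2
  have h2 : ∀ i, 0 ≤ r i ^ 2 - 1 - Real.log (r i ^ 2) := fun i => by
    linarith [Real.log_le_sub_one_of_pos (pow_pos (hr i) 2)]
  have h3 : (r k - r j) ^ 2 ≤ ∑ i, (r i ^ 2 - 1 - Real.log (r i ^ 2)) := by
    rcases eq_or_ne k j with e | e
    · rw [e, sub_self, zero_pow two_ne_zero]
      exact Finset.sum_nonneg fun i _ => h2 i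
    · refine le_trans ?_ (Finset.add_le_sum (f := fun i => r i ^ 2 - 1 - Real.log (r i ^ 2))
        (fun i _ => h2 i) (Finset.mem_univ k) (Finset.mem_univ j) e)
      have a := Real.log_le_sub_one_of_pos (mul_pos (hr k) (hr j))
      rw [Real.log_mul (hr k).ne' (hr j).ne'] at a
      simp only [Real.log_pow]
      push_cast
      nlinarith
  simp only [Finset.sum_sub_distrib, Finset.sum_const, Finset.card_univ, nsmul_eq_mul,
    mul_one] at h3
  rw [← Real.log_prod fun i _ => (pow_pos (hr i) 2).ne'] at h3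
  have h4 : 0 ≤ (1 - κ) * (r k - r j) ^ 2 := mul_nonneg (by linarith) (sq_nonneg _)
  refine ⟨(Real.log_nonpos_iff hp.le).1 (by linarith), fun h0 i => ?_⟩
  rw [h0, Real.log_one] at h3
  have h5 : (r k - r j) ^ 2 = 0 := by
    refine le_antisymm (le_of_mul_le_mul_left ?_ (sub_pos.2 hκ)) (sq_nonneg _)
    linarith
  have h6 : r k = r j := sub_eq_zero.1 (pow_eq_zero_iff two_ne_zero |>.1 h5)
  have h7 : ∀ l, r l = r i := fun l => by
    linarith [(hm l).1, (hm l).2, (hm i).1, (hm i).2]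
  simp only [h7, Finset.prod_const, Finset.card_univ, ← pow_mul] at h0
  have : Nonempty ι := ⟨i⟩
  exact (pow_eq_one_iff_of_nonneg (hr i).le (mul_ne_zero two_ne_zero Fintype.card_ne_zero)).1 h0

/-- The Jacobian estimate: an isotropic family of touching functionals with vanishing first
moment forces `|det L| ≤ 1`, with rigidity in the case of equality. -/
theorem alg2 {n : ℕ} {W : Type*} [MeasurableSpace W] (μ : Measure W) [IsFiniteMeasure μ]
    (u : W → E n) (l : W → E n →L[ℝ] ℝ) (L : E n →L[ℝ] E n) (ε : ℝ)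
    (hu : ∀ᵐ w ∂μ, ‖u w‖ = 1) (hum : AEStronglyMeasurable u μ)
    (hiso : ∀ a b : E n, ∫ w, ⟪u w, a⟫ * ⟪u w, b⟫ ∂μ = ⟪a, b⟫)
    (hint : ∀ e a : E n, Integrable (fun w => l w e * ⟪u w, a⟫) μ)
    (hzero : ∀ e a : E n, ∫ w, l w e * ⟪u w, a⟫ ∂μ = 0)
    (hε : n * ε ^ 2 < 4) (hok : ∀ᵐ w ∂μ, ∃ c, Tch L ε (u w) (l w) c) :
    |L.det| ≤ 1 ∧ (|L.det| = 1 → (∀ e, ‖L e‖ = ‖e‖) ∧
      ∀ᵐ w ∂μ, ∀ c, Tch L ε (u w) (l w) c → c = 1) := by
  rcases eq_or_ne L.det 0 with h0 | h0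
  · rw [h0, abs_zero]
    exact ⟨zero_le_one, fun h => absurd h zero_ne_one⟩
  obtain ⟨e, f, s, hs, hL, hdet⟩ := nuc_svd L h0
  obtain ⟨r, hr, hrs⟩ : ∃ r : Fin n → ℝ, (∀ i, 0 < r i) ∧ ∀ i, s i = r i ^ 2 :=
    ⟨fun i => √(s i), fun i => Real.sqrt_pos.2 (hs i), fun i => (Real.sq_sqrt (hs i).le).symm⟩
  simp only [hrs] at hL hdet
  rcases isEmpty_or_nonempty (Fin n) with hn | hn
  · refine ⟨by simp [hdet], fun _ => ⟨fun v => ?_, hu.mono fun w hw => ?_⟩⟩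
    · rw [Subsingleton.elim (L v) v]
    · simp [Subsingleton.elim (u w) 0] at hw
  obtain ⟨j, -, hj⟩ := Finset.exists_min_image Finset.univ r Finset.univ_nonempty
  obtain ⟨k, -, hk⟩ := Finset.exists_max_image Finset.univ r Finset.univ_nonempty
  have hjk : ∀ i, r j ≤ r i ∧ r i ≤ r k := fun i => ⟨hj i (Finset.mem_univ i),
    hk i (Finset.mem_univ i)⟩
  have hx : ∀ i, Integrable (fun w => ⟪u w, f i⟫ ^ 2) μ := fun i => by
    refine Integrable.of_bound ((hum.inner aestronglyMeasurable_const).pow 2) 1 ?_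
    filter_upwards [hu] with w hw
    have h1 := abs_real_inner_le_norm (u w) (f i)
    rw [hw, f.orthonormal.1 i, mul_one] at h1
    rw [norm_pow, Real.norm_eq_abs]
    exact pow_le_one₀ (abs_nonneg _) h1
  have hx1 : ∀ i, ∫ w, ⟪u w, f i⟫ ^ 2 ∂μ = 1 := fun i => by
    simp only [sq]
    rw [hiso, real_inner_self_eq_norm_sq, f.orthonormal.1 i, one_pow]
  have hm : μ.real univ = n := by
    have h1 : ∫ w, ∑ i, ⟪u w, f i⟫ ^ 2 ∂μ = ∫ _w, (1 : ℝ) ∂μ := by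
      refine integral_congr_ae ?_
      filter_upwards [hu] with w hw
      rw [f.sum_sq_inner_left, hw, one_pow]
    rw [integral_finsetSum _ fun i _ => hx i] at h1
    simpa [hx1] using h1.symm
  have hgi : Integrable (fun w => ∑ i, l w (e i) * ⟪u w, f i⟫) μ :=
    integrable_finsetSum _ fun i _ => hint _ _
  have hg0 : ∫ w, ∑ i, l w (e i) * ⟪u w, f i⟫ ∂μ = 0 := by
    rw [integral_finsetSum _ fun i _ => hint _ _]
    simp only [hzero, Finset.sum_const_zero]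
  have hai : Integrable (fun w => ∑ i, r i ^ 2 * ⟪u w, f i⟫ ^ 2) μ :=
    integrable_finsetSum _ fun i _ => (hx i).const_mul _
  have ha : ∫ w, ∑ i, r i ^ 2 * ⟪u w, f i⟫ ^ 2 ∂μ = ∑ i, r i ^ 2 := by
    rw [integral_finsetSum _ fun i _ => (hx i).const_mul _]
    simp only [integral_const_mul, hx1, mul_one]
  have hle : ∀ᵐ w ∂μ, ∑ i, l w (e i) * ⟪u w, f i⟫ ≤
      (1 + ε ^ 2 / 4 * (r k - r j) ^ 2) - ∑ i, r i ^ 2 * ⟪u w, f i⟫ ^ 2 := by
    filter_upwards [hu, hok] with w hw ⟨c, hc⟩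
    obtain ⟨z, h1, h2, h3⟩ := tch_eval e f r hL hw hc
    have h5 := pt2 r (fun i => ⟪u w, f i⟫) z c ε _ _ (hr j).le hjk hc.1
      (by rw [f.sum_sq_inner_left, hw, one_pow]) h1 h2
    linarith
  have htr := integral_mono_ae hgi ((integrable_const _).sub hai) hle
  rw [hg0] at htr
  simp only [Pi.sub_apply] at htr
  rw [integral_sub (integrable_const _) hai, ha, integral_const, hm, smul_eq_mul] at htr
  have hlog := log2 r hr j k (κ := n * ε ^ 2 / 4) (by linarith) hjk (by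
    rw [Fintype.card_fin]
    linarith)
  rw [hdet]
  refine ⟨hlog.1, fun h1 => ?_⟩
  have hr1 := hlog.2 h1
  have hL1 : ∀ i, L (e i) = f i := fun i => by rw [hL, hr1, one_pow, one_smul]
  constructor
  · intro v
    have h2 : L v = ∑ i, ⟪e i, v⟫ • f i := by
      conv_lhs => rw [← e.sum_repr' v]
      simp only [map_sum, map_smul, hL1]
    have h3 : ‖L v‖ ^ 2 = ‖v‖ ^ 2 := by
      rw [h2, ← f.sum_sq_inner_right, ← e.sum_sq_inner_right v]
      simp only [f.orthonormal.inner_right_fintype]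
    exact (pow_left_inj₀ (norm_nonneg _) (norm_nonneg _) two_ne_zero).1 h3
  · have hc1 : ∀ w, ‖u w‖ = 1 → ∀ c, Tch L ε (u w) (l w) c →
        ∑ i, l w (e i) * ⟪u w, f i⟫ ≤ 1 - c := fun w hw c hc => by
      obtain ⟨z, h2, -, h3⟩ := tch_eval e f r hL hw hc
      simp only [hr1, one_pow, one_mul] at h3
      rwa [h2, f.sum_sq_inner_left, hw, one_pow, mul_one, add_zero] at h3
    have hneg : 0 ≤ᵐ[μ] fun w => -∑ i, l w (e i) * ⟪u w, f i⟫ := by
      filter_upwards [hu, hok] with w hw ⟨c, hc⟩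
      have := hc1 w hw c hc
      have := hc.1
      simp only [Pi.zero_apply]
      linarith
    have hz := (integral_eq_zero_iff_of_nonneg_ae hneg hgi.neg).1
      (by rw [integral_neg, hg0, neg_zero])
    filter_upwards [hu, hz] with w hw h2 c hc
    have h3 := hc1 w hw c hc
    simp only [Pi.zero_apply, neg_eq_zero] at h2
    have := hc.1
    linarith

end Pool.Agent.MP_3ee8cb_gt.PXQ
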