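import Mathlib

/-! Two scalar inequalities. -/

namespace Pool.Agent.MP_3ee8cb_gt.PXQ

theorem num1 {N t x : ℝ} (hN : 4 ≤ N) (t0 : 1 ≤ (0.535 * N) ^ 2 * t) (x0 : 0 ≤ x)
    (x1 : x ≤ 16.2 / N ^ 2 * (1 - t ^ 2)) :
    16.2 / N ^ 2 * x - x ^ 2 ≤ 3.9 / N * t * (1 - t + x) := by
  obtain ⟨s, hs, s0, s1⟩ : ∃ s : ℝ, N * s = 1 ∧ 0 < s ∧ s ≤ 1 / 4 :=
    ⟨N⁻¹, mul_inv_cancel₀ (by linarith), by positivity, by
      rw [inv_eq_one_div]; exact one_div_le_one_div_of_le (by norm_num) hN⟩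
  have N0 : N ≠ 0 := by positivity
  have e1 : 16.2 / N ^ 2 = 16.2 * s ^ 2 := by
    rw [div_eq_iff (by positivity)]
    linear_combination (-16.2 * (N * s + 1)) * hs
  have e2 : 3.9 / N = 3.9 * s := by
    rw [div_eq_iff N0]
    linear_combination (-3.9) * hs
  rw [e1] at x1 ⊢
  rw [e2]
  have t2 : 3.4937 * s ^ 2 ≤ t := by
    have a : s ^ 2 ≤ 0.535 ^ 2 * t := by
      have := mul_le_mul_of_nonneg_left t0 (sq_nonneg s)
      have e : s ^ 2 * ((0.535 * N) ^ 2 * t) = 0.535 ^ 2 * t := by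
        linear_combination (0.535 ^ 2 * t * (N * s + 1)) * hs
      linarith
    nlinarith [sq_nonneg s]
  have s2 : 0 < s ^ 2 := by positivity
  have tp : 0 < t := by linarith
  rcases le_total t 0.72 with h | h
  · have k : (16.2 * s - 3.9 * t) ^ 2 * s ≤ 4 * 3.9 * t * (1 - t) := by
      have k0 : (16.2 - 3.9 * (3.4937 * s)) ^ 2 * s ≤ 4 * 3.9 * 3.4937 * (1 - 3.4937 * s ^ 2) := by
        nlinarith [mul_nonneg (sub_nonneg.2 s1) s0.le, mul_nonneg (sub_nonneg.2 s1) s2.le]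
      have k1 : (16.2 * s - 3.9 * 0.72) ^ 2 * s ≤ 4 * 3.9 * 0.72 * (1 - 0.72) := by
        nlinarith [mul_nonneg (sub_nonneg.2 s1) s0.le, mul_nonneg (sub_nonneg.2 s1) s2.le]
      have k2 := mul_le_mul_of_nonneg_left k0 s2.le
      have d : 0 < 0.72 - 3.4937 * s ^ 2 := by nlinarith
      have k3 := mul_le_mul_of_nonneg_left k2 (sub_nonneg.2 h)
      have k4 := mul_le_mul_of_nonneg_left k1 (sub_nonneg.2 t2)
      have k5 := mul_nonneg (mul_nonneg (mul_nonneg (sub_nonneg.2 h) (sub_nonneg.2 t2)) d.le)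
        (show 0 ≤ 4 * 3.9 + 3.9 ^ 2 * s by positivity)
      refine le_of_mul_le_mul_left ?_ d
      nlinarith
    have k6 := mul_le_mul_of_nonneg_left k s0.le
    nlinarith [sq_nonneg (2 * x - (16.2 * s ^ 2 - 3.9 * s * t))]
  · have a1 : x ≤ 2 * (16.2 * s ^ 2) * (1 - t) := by
      nlinarith [mul_nonneg s2.le (sq_nonneg (1 - t))]
    have a2 : 2 * (16.2 * s ^ 2) ^ 2 ≤ 3.9 * s * t * (1 + 2 * (16.2 * s ^ 2)) := by
      have b1 : 2 * 16.2 ^ 2 * s ^ 3 ≤ 3.9 * 0.72 * (1 + 2 * (16.2 * s ^ 2)) := by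
        nlinarith [mul_nonneg (sub_nonneg.2 s1) s0.le, mul_nonneg (sub_nonneg.2 s1) s2.le]
      have b2 := mul_le_mul_of_nonneg_left b1 s0.le
      have b3 := mul_le_mul_of_nonneg_left h (show 0 ≤ 3.9 * s * (1 + 2 * (16.2 * s ^ 2)) by
        positivity)
      nlinarith
    have a3 := mul_le_mul_of_nonneg_left a1 (show 0 ≤ 3.9 * s * t by positivity)
    have a4 := mul_le_mul_of_nonneg_right a2 x0
    refine le_of_mul_le_mul_left ?_ (show 0 < 2 * (16.2 * s ^ 2) by positivity)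
    nlinarith [mul_nonneg s2.le (sq_nonneg x)]

theorem tan_log {y a : ℝ} (hy : 0 ≤ y) (ha : 0 < a) :
    y * Real.log a + y - a ≤ y * Real.log y := by
  rcases hy.eq_or_lt with rfl | h
  · linarith
  have h1 := Real.log_le_sub_one_of_pos (div_pos ha h)
  rw [Real.log_div ha.ne' h.ne'] at h1
  have h2 := mul_le_mul_of_nonneg_left h1 hy
  have h3 : y * (a / y - 1) = a - y := by field_simp
  nlinarith

theorem num2 {N x : ℝ} (hN : 4 ≤ N) (x0 : 0 ≤ x) (x1 : x ≤ 1) :
    0.97 * (x ^ 2 - 1 / N) + 0.001 / (0.525 * N) ≤ x * Real.log (0.525 * N * x) := by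
  set F := 0.525 * N with hF
  have F0 : 2.1 ≤ F := by linarith
  have Fp : 0 < F := by linarith
  set y := F * x with hy
  have y0 : 0 ≤ y := by positivity
  have l2 := Real.log_two_gt_d9
  have l2' := Real.log_two_lt_d9
  have l3 : 0.4 ≤ Real.log (3 / 2) := by
    have h := Real.le_log_one_add_of_nonneg (show (0 : ℝ) ≤ 1 / 2 by norm_num)
    norm_num at h ⊢
    linarith
  have key : 0.97 * (x * y) - 0.50825 ≤ y * Real.log y := by
    have a2 := tan_log y0 two_pos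
    rcases le_total y 2.1 with h | h
    · have xy : 2.1 * (x * y) ≤ y ^ 2 := by nlinarith [mul_nonneg x0 y0]
      have a1 := tan_log y0 one_pos
      have a3 := tan_log y0 (show (0 : ℝ) < 3 / 2 by norm_num)
      have a4 := tan_log y0 (show (0 : ℝ) < 1 / 2 by norm_num)
      have a5 := tan_log y0 (show (0 : ℝ) < 3 / 2 / 2 by norm_num)
      rw [Real.log_one] at a1
      rw [one_div, Real.log_inv] at a4
      rw [Real.log_div (by norm_num) (by norm_num)] at a5
      have b2 := mul_le_mul_of_nonneg_left l2.le y0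
      have b3 := mul_le_mul_of_nonneg_left l2'.le y0
      have b4 := mul_le_mul_of_nonneg_left l3 y0
      rcases le_total y 0.6 with h1 | h1
      · nlinarith [mul_nonneg y0 (sub_nonneg.2 h1)]
      rcases le_total y 0.87 with h2 | h2
      · nlinarith [mul_nonneg (sub_nonneg.2 h1) (sub_nonneg.2 h2)]
      rcases le_total y 1.25 with h3 | h3
      · nlinarith [mul_nonneg (sub_nonneg.2 h2) (sub_nonneg.2 h3)]
      rcases le_total y 1.7 with h4 | h4
      · nlinarith [mul_nonneg (sub_nonneg.2 h3) (sub_nonneg.2 h4)]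
      · nlinarith [mul_nonneg (sub_nonneg.2 h4) (sub_nonneg.2 h)]
    · have b2 := mul_le_mul_of_nonneg_left l2.le y0
      nlinarith [mul_le_mul_of_nonneg_right x1 y0]
  refine le_of_mul_le_mul_left ?_ Fp
  have e : F * (0.97 * (x ^ 2 - 1 / N) + 0.001 / F) = 0.97 * (x * y) - 0.50825 := by
    have : N ≠ 0 := by positivity
    rw [hy, hF]
    field_simp
    ring
  rw [e, ← mul_assoc F x]
  exact key

end Pool.Agent.MP_3ee8cb_gt.PXQ
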